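import Pool.Agent.BEH.StmtsD
import Pool.Agent.Helper24_BEL.LIN

/-!
# Squad BEH (MP_be01ff_an), row LIU: from `L^2` to `L^∞`, with a constant before the domain
-/

set_option autoImplicit false

namespace Pool.Agent.BEH.H46

open Set Filter Topology MeasureTheory
open scoped InnerProductSpace ENNReal
open Pool.Agent.BE01 Pool.Agent.BEL Pool.Agent.BEH

noncomputable section

theorem liu (hULU : UluStmt) : LiuStmt := by
  intro d hd
  obtain ⟨C, hC, hU⟩ := hULU d hd
  refine ⟨C, hC, fun Ω ι b e om hΩ hE hS t f u ht hu => ?_⟩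
  have h1 := Pool.Agent.BEL.H24.upper b om hΩ t (C * t ^ (-((d : ℝ) / 4))) ht.le
    (fun f u h => hU Ω ι b e om hΩ hE hS t f u ht h) f u hu
  have hn : Heat b om t (-f) (-u) := by
    intro k
    rw [inner_neg_right, inner_neg_right, hu k]
    ring
  have h2 := Pool.Agent.BEL.H24.upper b om hΩ t (C * t ^ (-((d : ℝ) / 4))) ht.le
    (fun f u h => hU Ω ι b e om hΩ hE hS t f u ht h) (-f) (-u) hn
  filter_upwards [h1, h2, Lp.coeFn_neg u] with x hx1 hx2 hx3
  rw [hx3, norm_neg] at hx2
  have hx4 : (-⇑u) x = - u x := rfl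
  rw [hx4] at hx2
  exact abs_le.2 ⟨by linarith, hx1⟩

end

end Pool.Agent.BEH.H46
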